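import Pool.Agent.X115.HS.Stm

/-! Part HS_DEC of the project HS (helper115). -/

set_option autoImplicit false

namespace Pool.Agent.X283.HS

open Set Filter Topology

/-- one step: from `s ^ k * A s ≤ M` to `s ^ (k+1) * A s ≤ C * M + C` -/
theorem dec_step (A : ℝ → ℝ) (C M : ℝ) (J k : ℕ) (hC : 0 ≤ C) (hM : 0 ≤ M) (hk : k + 1 ≤ J)
    (hd : ∀ s : ℝ, 0 < s → DifferentiableAt ℝ A s) (h0 : ∀ s : ℝ, 0 < s → 0 ≤ A s)
    (hlim : Tendsto A atTop (𝓝 0))
    (hA : ∀ s : ℝ, 1 ≤ s → -(C * (A (9 / 2 * s) / s ^ 2 + 1 / s ^ (J + 1))) ≤ deriv A s)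
    (hkM : ∀ s : ℝ, 1 ≤ s → s ^ k * A s ≤ M) :
    ∀ s : ℝ, 1 ≤ s → s ^ (k + 1) * A s ≤ C * M + C := by
  -- the comparison function
  let G : ℝ → ℝ := fun s => (C * M + C) * (s ^ (k + 1))⁻¹
  have hGd : ∀ s : ℝ, 0 < s →
      HasDerivAt G ((C * M + C) * (-((k + 1 : ℕ) * s ^ k) / (s ^ (k + 1)) ^ 2)) s := by
    intro s hs
    have h1 : HasDerivAt (fun s : ℝ => s ^ (k + 1)) ((k + 1 : ℕ) * s ^ k) s := by
      simpa using hasDerivAt_pow (k + 1) s
    exact (h1.inv (by positivity)).const_mul _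
  have hmono : MonotoneOn (fun s => A s - G s) (Ici 1) := by
    apply monotoneOn_of_deriv_nonneg (convex_Ici 1)
    · intro s hs
      have hs0 : 0 < s := lt_of_lt_of_le one_pos hs
      exact ((hd s hs0).continuousAt.sub (hGd s hs0).continuousAt).continuousWithinAt
    · intro s hs
      rw [interior_Ici] at hs
      have hs0 : 0 < s := lt_trans one_pos hs
      exact ((hd s hs0).sub (hGd s hs0).differentiableAt).differentiableWithinAt
    · intro s hs
      rw [interior_Ici] at hs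
      have hs1 : 1 < s := hs
      have hs0 : 0 < s := lt_trans one_pos hs
      have e1 : deriv (fun s => A s - G s) s = deriv A s -
          (C * M + C) * (-((k + 1 : ℕ) * s ^ k) / (s ^ (k + 1)) ^ 2) :=
        ((hd s hs0).hasDerivAt.sub (hGd s hs0)).deriv
      rw [e1]
      have h1 := hA s hs1.le
      have h2 : A (9 / 2 * s) ≤ M / s ^ k := by
        have h3 := hkM (9 / 2 * s) (by linarith)
        have h4 : 0 ≤ A (9 / 2 * s) := h0 _ (by positivity)
        have h5 : s ^ k ≤ (9 / 2 * s) ^ k := pow_le_pow_left₀ hs0.le (by linarith) k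
        rw [le_div_iff₀ (by positivity)]
        calc A (9 / 2 * s) * s ^ k = s ^ k * A (9 / 2 * s) := mul_comm _ _
          _ ≤ (9 / 2 * s) ^ k * A (9 / 2 * s) := mul_le_mul_of_nonneg_right h5 h4
          _ ≤ M := h3
      have h6 : A (9 / 2 * s) / s ^ 2 ≤ M / s ^ (k + 2) := by
        calc A (9 / 2 * s) / s ^ 2 ≤ (M / s ^ k) / s ^ 2 :=
              div_le_div_of_nonneg_right h2 (by positivity)
          _ = M / s ^ (k + 2) := by rw [div_div, ← pow_add]
      have h7 : 1 / s ^ (J + 1) ≤ 1 / s ^ (k + 2) := by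
        apply one_div_le_one_div_of_le (by positivity)
        exact pow_le_pow_right₀ hs1.le (by omega)
      have h8 : (C * M + C) * (-((k + 1 : ℕ) * s ^ k) / (s ^ (k + 1)) ^ 2) ≤
          -((C * M + C) / s ^ (k + 2)) := by
        have e2 : -((k + 1 : ℕ) * s ^ k : ℝ) / (s ^ (k + 1)) ^ 2 =
            -(((k + 1 : ℕ) : ℝ) / s ^ (k + 2)) := by
          have : (s ^ (k + 1)) ^ 2 = s ^ k * s ^ (k + 2) := by ring
          rw [this, neg_div, mul_comm ((k + 1 : ℕ) : ℝ), mul_div_mul_left _ _ (by positivity)]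
        rw [e2]
        have h9 : (1 : ℝ) ≤ ((k + 1 : ℕ) : ℝ) := by exact_mod_cast Nat.succ_le_succ (Nat.zero_le k)
        have h10 : 1 / s ^ (k + 2) ≤ ((k + 1 : ℕ) : ℝ) / s ^ (k + 2) :=
          div_le_div_of_nonneg_right h9 (by positivity)
        have h11 : 0 ≤ C * M + C := by positivity
        have h12 := mul_le_mul_of_nonneg_left h10 h11
        have e3 : (C * M + C) / s ^ (k + 2) = (C * M + C) * (1 / s ^ (k + 2)) := by ring
        rw [e3]
        linarith [h12]
      have h13 : C * (A (9 / 2 * s) / s ^ 2 + 1 / s ^ (J + 1)) ≤ (C * M + C) / s ^ (k + 2) := by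
        calc C * (A (9 / 2 * s) / s ^ 2 + 1 / s ^ (J + 1))
            ≤ C * (M / s ^ (k + 2) + 1 / s ^ (k + 2)) :=
              mul_le_mul_of_nonneg_left (add_le_add h6 h7) hC
          _ = (C * M + C) / s ^ (k + 2) := by ring
      linarith
  have hGlim : Tendsto G atTop (𝓝 0) := by
    have h1 : Tendsto (fun s : ℝ => (s ^ (k + 1))⁻¹) atTop (𝓝 0) :=
      (tendsto_pow_atTop (Nat.succ_ne_zero k)).inv_tendsto_atTop
    simpa using h1.const_mul (C * M + C)
  have hlim2 : Tendsto (fun s => A s - G s) atTop (𝓝 0) := by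
    simpa using hlim.sub hGlim
  intro s hs
  have hs0 : 0 < s := lt_of_lt_of_le one_pos hs
  have h1 : A s - G s ≤ 0 := by
    apply ge_of_tendsto hlim2
    filter_upwards [eventually_ge_atTop s] with t ht
    exact hmono (mem_Ici.2 hs) (mem_Ici.2 (hs.trans ht)) ht
  have h2 : A s ≤ (C * M + C) * (s ^ (k + 1))⁻¹ := by
    have : G s = (C * M + C) * (s ^ (k + 1))⁻¹ := rfl
    linarith
  have h3 : 0 < s ^ (k + 1) := by positivity
  calc s ^ (k + 1) * A s ≤ s ^ (k + 1) * ((C * M + C) * (s ^ (k + 1))⁻¹) :=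
        mul_le_mul_of_nonneg_left h2 h3.le
    _ = C * M + C := by field_simp

theorem t_DEC : Pool.Agent.X115.HS.S_DEC := by
  intro A C B J hJ hd h0 hB hlim hA
  have hA' : ∀ s : ℝ, 1 ≤ s →
      -(max C 0 * (A (9 / 2 * s) / s ^ 2 + 1 / s ^ (J + 1))) ≤ deriv A s := by
    intro s hs
    have hs0 : 0 < s := lt_of_lt_of_le one_pos hs
    have h1 : 0 ≤ A (9 / 2 * s) / s ^ 2 + 1 / s ^ (J + 1) := by
      have := h0 (9 / 2 * s) (by positivity)
      positivity
    have h2 := mul_le_mul_of_nonneg_right (le_max_left C 0) h1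
    linarith [hA s hs]
  have key : ∀ k : ℕ, k ≤ J → ∃ M : ℝ, 0 ≤ M ∧ ∀ s : ℝ, 1 ≤ s → s ^ k * A s ≤ M := by
    intro k
    induction k with
    | zero =>
      intro _
      refine ⟨max B 0, le_max_right _ _, fun s hs => ?_⟩
      simpa using (hB s hs).trans (le_max_left B 0)
    | succ k ih =>
      intro hk
      obtain ⟨M, hM, h⟩ := ih (by omega)
      exact ⟨max C 0 * M + max C 0, by positivity,
        dec_step A (max C 0) M J k (le_max_right _ _) hM hk hd h0 hlim hA' h⟩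
  obtain ⟨M, _, h⟩ := key J le_rfl
  exact ⟨M, h⟩

end Pool.Agent.X283.HS
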